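import Pool.Agent.helper77.MC.Spec

set_option autoImplicit false

namespace Pool.Agent.helper77.MC

open Finset Numbering

theorem FA_mem {β : Type} [Fintype β] (y : β → ℝ) (c : ℝ) (m : ℕ) (J : Finset β) :
    J ∈ fam y c m ↔ ∑ i ∈ J, y i = c ∧ #J ≤ m := by
  classical
  unfold fam
  simp only [Finset.mem_filter, Finset.mem_univ, true_and]

theorem FA : FA_stmt := by
  intro β _ y c d m l hy hc
  classical
  refine ⟨?_, ?_, ?_⟩
  · intro J hJ
    rw [FA_mem] at hJ
    refine ⟨?_, hJ.2, hJ.1⟩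
    rw [Finset.nonempty_iff_ne_empty]
    rintro rfl
    have h := hJ.1
    rw [Finset.sum_empty] at h
    linarith
  · intro J hJ J' hJ' hsub
    rw [FA_mem] at hJ hJ'
    by_contra hne
    have h1 : ∃ b ∈ J', b ∉ J := by
      by_contra hcon
      push Not at hcon
      exact hne (Finset.Subset.antisymm hsub hcon)
    obtain ⟨b, hb, hb2⟩ := h1
    have h2 : ∑ i ∈ J, y i < ∑ i ∈ J', y i :=
      Finset.sum_lt_sum_of_subset hsub hb hb2 (hy b) (fun i _ _ => (hy i).le)
    linarith [hJ.1, hJ'.1]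
  · intro hcd J hJ J' hJ' hsub
    rw [FA_mem] at hJ hJ'
    have h2 : ∑ i ∈ J', y i ≤ ∑ i ∈ J, y i :=
      Finset.sum_le_sum_of_subset_of_nonneg hsub (fun i _ _ => (hy i).le)
    linarith [hJ.1, hJ'.1]

end Pool.Agent.helper77.MC
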