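import Pool.Agent.helper77.MC.Spec

set_option autoImplicit false

namespace Pool.Agent.helper77.MC

open Finset Numbering

theorem GD (hFA : FA_stmt) : GD_stmt := by
  intro β _ _ y c m w g hy hc hw hg f
  obtain ⟨h1, h2, -⟩ := hFA β y c c m m hy hc
  by_cases h : ∃ J ∈ fam y c m, f ∈ prefixed J
  · obtain ⟨J0, hJ0, hf0⟩ := h
    rw [Finset.sum_eq_single J0]
    · rw [if_pos hf0]
      exact hg _ (h1 J0 hJ0).2.1
    · intro J hJ hne
      rw [if_neg]
      intro hf
      have h3 : J ⊆ J0 ∨ J0 ⊆ J := by
        by_contra hcon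
        push Not at hcon
        have h4 := disjoint_prefixed_prefixed hcon.1 hcon.2
        exact Finset.disjoint_left.1 h4 hf hf0
      rcases h3 with h3 | h3
      · exact hne (h2 J hJ J0 hJ0 h3)
      · exact hne (h2 J0 hJ0 J hJ h3).symm
    · intro h
      exact absurd hJ0 h
  · push Not at h
    rw [Finset.sum_eq_zero]
    · exact hw
    · intro J hJ
      rw [if_neg (h J hJ)]

end Pool.Agent.helper77.MC
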