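import Pool.Agent.helper77.MC.Spec

set_option autoImplicit false

namespace Pool.Agent.helper77.MC

open Finset Numbering

theorem P1 (hFA : FA_stmt) : P1_stmt := by
  intro β _ y c m w hy hc hw hj
  classical
  obtain ⟨h1, h2, -⟩ := hFA β y c c m m hy hc
  have hanti : IsAntichain (· ⊆ ·) ((fam y c m : Finset (Finset β)) : Set (Finset β)) := by
    intro J hJ J' hJ' hne hsub
    exact hne (h2 J hJ J' hJ' hsub)
  have hlym := Finset.lubell_yamamoto_meshalkin_inequality_sum_inv_choose (𝕜 := ℝ) hanti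
  rcases (fam y c m).eq_empty_or_nonempty with he | hne
  · rw [he]
    simpa using hw
  have hterm : ∀ J ∈ fam y c m, (w : ℝ)⁻¹ ≤ ((Fintype.card β).choose #J : ℝ)⁻¹ := by
    intro J hJ
    have h3 : (0 : ℝ) < (Fintype.card β).choose #J := by
      exact_mod_cast Nat.choose_pos (Finset.card_le_univ J)
    exact inv_anti₀ h3 (hj _ (h1 J hJ).2.1)
  have hwpos : 0 < w := by
    obtain ⟨J, hJ⟩ := hne
    have h3 : (0 : ℝ) < (Fintype.card β).choose #J := by
      exact_mod_cast Nat.choose_pos (Finset.card_le_univ J)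
    exact h3.trans_le (hj _ (h1 J hJ).2.1)
  have h4 : (#(fam y c m) : ℝ) * w⁻¹ ≤ 1 := by
    calc (#(fam y c m) : ℝ) * w⁻¹ = ∑ J ∈ fam y c m, w⁻¹ := by rw [Finset.sum_const, nsmul_eq_mul]
      _ ≤ ∑ J ∈ fam y c m, ((Fintype.card β).choose #J : ℝ)⁻¹ := Finset.sum_le_sum hterm
      _ ≤ 1 := hlym
  rw [mul_inv_le_iff₀ hwpos, one_mul] at h4
  exact h4

end Pool.Agent.helper77.MC
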