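import Pool.Agent.helper77.MC.Spec

set_option autoImplicit false

namespace Pool.Agent.helper77.MC

open Finset Numbering

theorem SG (hJC : JC_stmt) : SG_stmt := by
  intro β _ _ t A hA hanti
  have hcard : ∀ s ∈ A, ((#t).choose #s : ℝ)⁻¹ = (#((prefixed s : Finset (Numbering β)) ∩ prefixed t) : ℝ) / #(prefixed t : Finset (Numbering β)) := by
    intro s hs
    have h1 := hJC β s t (hA s hs)
    have h2 : (0 : ℝ) < ((#t).choose #s : ℝ) := by
      exact_mod_cast Nat.choose_pos (Finset.card_le_card (hA s hs))
    have h3 : (0 : ℝ) < (#(prefixed t : Finset (Numbering β)) : ℝ) := by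
      rw [card_prefixed]
      exact_mod_cast Nat.mul_pos (Nat.factorial_pos _) (Nat.factorial_pos _)
    have h4 : (#((prefixed s : Finset (Numbering β)) ∩ prefixed t) : ℝ) * ((#t).choose #s : ℝ) = #(prefixed t : Finset (Numbering β)) := by
      exact_mod_cast h1
    rw [eq_div_iff h3.ne', ← h4]
    field_simp
  rw [Finset.sum_congr rfl hcard, ← Finset.sum_div]
  have h3 : (0 : ℝ) < (#(prefixed t : Finset (Numbering β)) : ℝ) := by
    rw [card_prefixed]
    exact_mod_cast Nat.mul_pos (Nat.factorial_pos _) (Nat.factorial_pos _)
  rw [div_le_one h3]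
  have h5 : #(A.biUnion fun s => (prefixed s : Finset (Numbering β)) ∩ prefixed t) = ∑ s ∈ A, #((prefixed s : Finset (Numbering β)) ∩ prefixed t) := by
    apply Finset.card_biUnion
    intro s hs s' hs' hne
    have h6 : Disjoint (prefixed s : Finset (Numbering β)) (prefixed s') := by
      apply disjoint_prefixed_prefixed
      · intro h
        exact hne (hanti s hs s' hs' h)
      · intro h
        exact hne (hanti s' hs' s hs h).symm
    exact Finset.disjoint_of_subset_left Finset.inter_subset_left (Finset.disjoint_of_subset_right Finset.inter_subset_left h6)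
  have h7 : (∑ s ∈ A, (#((prefixed s : Finset (Numbering β)) ∩ prefixed t) : ℝ)) = #(A.biUnion fun s => (prefixed s : Finset (Numbering β)) ∩ prefixed t) := by
    rw [h5]
    push_cast
    rfl
  rw [h7]
  have h8 : (A.biUnion fun s => (prefixed s : Finset (Numbering β)) ∩ prefixed t) ⊆ prefixed t := by
    apply Finset.biUnion_subset.2
    intro s _
    exact Finset.inter_subset_right
  exact_mod_cast Finset.card_le_card h8

end Pool.Agent.helper77.MC
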